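import Pool.Agent.N875.K15.Stm
import Pool.Agent.N391.K17.INF
import Pool.Agent.N803.K17.Min

/-!
# Project K15 (helper875), parts INF and MIN

Adapted from `Pool/Agent/N391/K17/INF.lean` (helper391) and `Pool/Agent/N803/K17/Min.lean` (helper803).
-/

set_option autoImplicit false

open NumberField IsDedekindDomain

namespace Pool.Agent.N756.K15

open Pool.Agent.N875.K17 (Qd)
open Pool.Agent.N856.QB (Lo)
open Pool.Agent.N391.K17 (Lo_map isSquare_of_nonneg isSquare_C isReal_of_pos isComplex_of_neg)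

lemma real_pos {a b : ℤ} (hb : b ≠ 0) (h : Lo ℝ 0 (-9) 16 (a : ℝ) (b : ℝ)) : 0 < b := by
  obtain ⟨x, y, hy, h1, -, ⟨t, ht⟩⟩ := h
  by_contra hcon
  have hb' : (b : ℝ) < 0 := by exact_mod_cast lt_of_le_of_ne (not_lt.1 hcon) hb
  push_cast at h1 ht
  have h2 : 0 < y ^ 2 := by positivity
  have h3 : 0 ≤ (x - -9) * (b : ℝ) := by rw [ht]; exact mul_self_nonneg t
  have h4 : x + 9 ≤ 0 := by nlinarith
  have h5 : x * (x - 16) > 0 := by nlinarith
  have h6 : (x - 0) * (x - -9) * (x - 16) = (x * (x - 16)) * (x + 9) := by ring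
  rw [h1, h6] at h2
  nlinarith

lemma real_Lo {a b : ℤ} (ha : a ≠ 0) (hb : 0 < b) : Lo ℝ 0 (-9) 16 (a : ℝ) (b : ℝ) := by
  have hb' : (0 : ℝ) < b := by exact_mod_cast hb
  rcases lt_or_gt_of_ne ha with h | h
  · have ha' : (a : ℝ) < 0 := by exact_mod_cast h
    refine ⟨-1, Real.sqrt 136, (Real.sqrt_pos.2 (by norm_num)).ne', ?_, ?_, ?_⟩
    · rw [Real.sq_sqrt (by norm_num)]
      push_cast
      norm_num
    · apply isSquare_of_nonneg
      push_cast
      nlinarith
    · apply isSquare_of_nonneg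
      push_cast
      nlinarith
  · have ha' : (0 : ℝ) < a := by exact_mod_cast h
    refine ⟨17, Real.sqrt 442, (Real.sqrt_pos.2 (by norm_num)).ne', ?_, ?_, ?_⟩
    · rw [Real.sq_sqrt (by norm_num)]
      push_cast
      norm_num
    · apply isSquare_of_nonneg
      push_cast
      nlinarith
    · apply isSquare_of_nonneg
      push_cast
      nlinarith

lemma complex_Lo (a b : ℤ) : Lo ℂ 0 (-9) 16 (a : ℂ) (b : ℂ) := by
  obtain ⟨y, hy⟩ := IsAlgClosed.exists_pow_nat_eq (442 : ℂ) zero_lt_two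
  refine ⟨17, y, ?_, ?_, isSquare_C _, isSquare_C _⟩
  · rintro rfl
    norm_num at hy
  · rw [hy]
    push_cast
    norm_num

theorem t_INF : Pool.Agent.N875.K15.S_INF := by
  intro m hm hm1 K _ _ r hq v a b ha hb
  have hm0 : m ≠ 0 := by
    rintro rfl
    exact not_squarefree_zero hm
  rcases lt_or_gt_of_ne hm0 with h | h
  · have hv := isComplex_of_neg h hq.hr v
    refine ⟨fun _ h' => absurd h' (by omega), fun _ => ?_⟩
    exact Lo_map (InfinitePlace.Completion.ringEquivComplexOfIsComplex hv).symm.toRingHom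
      (complex_Lo a b)
  · have hv := isReal_of_pos h hq.hr hq.hK v
    refine ⟨fun hL _ => ?_, fun hb' => ?_⟩
    · exact real_pos hb (Lo_map (InfinitePlace.Completion.extensionEmbeddingOfIsReal hv) hL)
    · exact Lo_map (InfinitePlace.Completion.ringEquivRealOfIsReal hv).symm.toRingHom
        (real_Lo ha (hb' h))

theorem t_MIN : Pool.Agent.N875.K15.S_MIN := by
  intro m hm h1 K _ _ r hq v
  refine Pool.Agent.N803.K17.min_coprime (Pool.Agent.N875.X15.WN 1) 421 (-4) ?_ v
  simp only [Pool.Agent.N875.X15.WN, WeierstrassCurve.c₄, WeierstrassCurve.Δ,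
    WeierstrassCurve.b₂, WeierstrassCurve.b₄, WeierstrassCurve.b₆, WeierstrassCurve.b₈]
  norm_num

end Pool.Agent.N756.K15
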